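import Pool.Agent.W811.LW.Stm

set_option autoImplicit false
open Finset Filter Topology
open scoped ENNReal

namespace Pool.Agent.W477.LW
open Pool.Agent.W811.LW

lemma et_pos (G : ℝ) (hG : 0 < G) (i : ℤ) : 0 < et G i := by
  unfold et; split_ifs <;> positivity

lemma et_succ (G : ℝ) (hG : 1 ≤ G) (i : ℤ) : et G (i + 1) ≤ G ^ 3 * et G i := by
  have h0 : (0:ℝ) < G := by linarith
  unfold et
  by_cases h : 0 ≤ i
  · rw [if_pos h, if_pos (by omega), zpow_add₀ h0.ne', zpow_one]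
    have h1 : G ≤ G ^ 3 := by
      calc G = G ^ 1 := by ring
        _ ≤ G ^ 3 := pow_le_pow_right₀ hG (by norm_num)
    have h2 : 0 < G ^ i := by positivity
    calc G ^ i * G = G * G ^ i := by ring
      _ ≤ G ^ 3 * G ^ i := mul_le_mul_of_nonneg_right h1 h2.le
  · by_cases h' : 0 ≤ i + 1
    · have h3 : i = -1 := by omega
      subst h3
      have e1 : ¬ ((0 : ℤ) ≤ -1) := by norm_num
      have e2 : (0 : ℤ) ≤ -1 + 1 := by norm_num
      rw [if_pos e2, if_neg e1]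
      have h4 : (G:ℝ) ^ (3 * (-1 : ℤ)) = (G ^ 3)⁻¹ := by
        rw [show (3 * (-1 : ℤ)) = -((3 : ℕ) : ℤ) by norm_num, zpow_neg, zpow_natCast]
      rw [h4, mul_inv_cancel₀ (by positivity)]
      norm_num
    · rw [if_neg h', if_neg h]
      rw [show 3 * (i + 1) = ((3 : ℕ) : ℤ) + 3 * i by push_cast; ring, zpow_add₀ h0.ne',
        zpow_natCast]

lemma rs_nonneg (y : ℝ) : 0 ≤ rs y := by
  unfold rs; positivity

lemma rs_sq (D : ℝ) (hD : 0 < D) : rs (D ^ 2) = D⁻¹ := by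
  unfold rs; rw [Real.sqrt_sq hD.le]

lemma rs_le (D a b : ℝ) (hD : 1 ≤ D) (ha : 0 < a) (hb : 0 < b) (hab : b ≤ 2 * D ^ 2 * a) :
    rs a ≤ 2 * D * rs b := by
  unfold rs
  have h1 : Real.sqrt b ≤ 2 * D * Real.sqrt a := by
    rw [show 2 * D * Real.sqrt a = Real.sqrt ((2 * D) ^ 2 * a) by
      rw [Real.sqrt_mul (by positivity), Real.sqrt_sq (by positivity)]]
    apply Real.sqrt_le_sqrt
    nlinarith [mul_pos ha (show (0:ℝ) < D ^ 2 by positivity)]
  have h2 : 0 < Real.sqrt a := Real.sqrt_pos.mpr ha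
  have h3 : 0 < Real.sqrt b := Real.sqrt_pos.mpr hb
  rw [← div_eq_mul_inv, le_div_iff₀ h3, inv_mul_le_iff₀ h2]
  linarith

lemma zq (D : ℝ) (hD : 0 < D) (j m : ℕ) :
    D ^ (-2 * ((j : ℤ) - (m : ℤ))) = D ^ (2 * m) / D ^ (2 * j) := by
  rw [show -2 * ((j : ℤ) - (m : ℤ)) = ((2 * m : ℕ) : ℤ) - ((2 * j : ℕ) : ℤ) by push_cast; ring,
    zpow_sub₀ hD.ne', zpow_natCast, zpow_natCast]

theorem sw0 (h : CLW0) (hp : POS) (hd : DWL) (hk : KERN) : SW0 := by
  intro G c0 hG hc hc1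
  set D : ℕ := G ^ 4 with hDdef
  have hcast : (G : ℝ) ^ 4 = (D : ℝ) := by rw [hDdef]; push_cast; rfl
  have hGr : (1000 : ℝ) ≤ (G : ℝ) := by exact_mod_cast hG
  have hG0 : (0 : ℝ) < (G : ℝ) := by linarith
  have hD2 : 2 ≤ D := by
    have : 1000 ^ 4 ≤ G ^ 4 := Nat.pow_le_pow_left hG 4
    rw [hDdef]; omega
  have hDr : (2 : ℝ) ≤ (D : ℝ) := by exact_mod_cast hD2
  have hD0 : (0 : ℝ) < (D : ℝ) := by linarith
  have hD1 : (1 : ℝ) ≤ (D : ℝ) := by linarith
  have hG3 : (1 : ℝ) ≤ (G : ℝ) ^ 3 := one_le_pow₀ (by linarith)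
  obtain ⟨M, hM, hK⟩ := hk G (c0 / (1024 * (D : ℝ) ^ 10)) (128 * (D : ℝ) ^ 10) (16 * (D : ℝ) ^ 4)
    (2 * (D : ℝ) * (G : ℝ) ^ 3) hG (by positivity)
    (by have := one_le_pow₀ hD1 (n := 10); linarith)
    (by have := one_le_pow₀ hD1 (n := 4); linarith)
    (by nlinarith)
  refine ⟨M, hM, ?_⟩
  intro α β j hα hβ
  set T : ℕ → ℝ := fun m => (1 / (D : ℝ) ^ 2) * ∑ d ∈ range (D ^ 2),
    et G (((j + 1 : ℕ) : ℤ) - (m : ℤ)) *
      rs (yW (D : ℝ) α (j + 1) 0 (β + (d : ℝ) / (D : ℝ) ^ (2 * j + 2)) m) with hT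
  have key := hK (fun m => (j : ℤ) - (m : ℤ)) (fun m => (m : ℤ) - (j : ℤ))
    (fun m => yW (D : ℝ) α j 0 β m) (fun m => yV (D : ℝ) α j 0 β m) T
    (by intro a b hab; simp only at hab; omega)
    (fun m => (hp D α c0 β j 0 m hD2 hc hα).2.2.2)
    (fun m => (hp D α c0 β j 0 m hD2 hc hα).2.2.1)
    (by
      intro m
      obtain ⟨hall, hor⟩ := h D c0 α β j m hD2 hc hα
      have hy : 0 < yW (D : ℝ) α j 0 β m := (hp D α c0 β j 0 m hD2 hc hα).2.2.2
      have het1 : et G (((j + 1 : ℕ) : ℤ) - (m : ℤ)) ≤ (G : ℝ) ^ 3 * et G ((j : ℤ) - (m : ℤ)) := by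
        have := et_succ (G : ℝ) (by linarith) ((j : ℤ) - (m : ℤ))
        rw [show (((j + 1 : ℕ) : ℤ) - (m : ℤ)) = ((j : ℤ) - (m : ℤ)) + 1 by push_cast; ring]
        exact this
      have hep := et_pos (G : ℝ) hG0 ((j : ℤ) - (m : ℤ))
      have hep1 := et_pos (G : ℝ) hG0 (((j + 1 : ℕ) : ℤ) - (m : ℤ))
      have hrs := rs_nonneg (yW (D : ℝ) α j 0 β m)
      rcases hor with hgood | ⟨v, hv, w, hw, hcr, hNv, hNw⟩
      · left
        simp only [hT]
        rw [← Finset.mul_sum]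
        calc (1 / (D : ℝ) ^ 2) * (et G (((j + 1 : ℕ) : ℤ) - (m : ℤ)) *
              ∑ d ∈ range (D ^ 2),
                rs (yW (D : ℝ) α (j + 1) 0 (β + (d : ℝ) / (D : ℝ) ^ (2 * j + 2)) m))
            ≤ (1 / (D : ℝ) ^ 2) * (((G : ℝ) ^ 3 * et G ((j : ℤ) - (m : ℤ))) *
              ((D : ℝ) ^ 2 * (16 * rs ((D : ℝ) ^ 2) * rs (yW D α j 0 β m)))) := by
              apply mul_le_mul_of_nonneg_left _ (by positivity)
              apply mul_le_mul het1 hgood _ (by positivity)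
              exact Finset.sum_nonneg (fun _ _ => rs_nonneg _)
          _ = (16 / (G : ℝ)) * (et G ((j : ℤ) - (m : ℤ)) * rs (yW D α j 0 β m)) := by
              rw [rs_sq (D : ℝ) hD0, ← hcast]
              field_simp
          _ ≤ (1 / 48) * (et G ((j : ℤ) - (m : ℤ)) * rs (yW D α j 0 β m)) := by
              apply mul_le_mul_of_nonneg_right _ (by positivity)
              rw [div_le_div_iff₀ hG0 (by norm_num)]
              linarith
      · right
        constructor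
        · simp only [hT]
          rw [← Finset.mul_sum]
          have hsum : ∑ d ∈ range (D ^ 2),
                rs (yW (D : ℝ) α (j + 1) 0 (β + (d : ℝ) / (D : ℝ) ^ (2 * j + 2)) m)
              ≤ (D : ℝ) ^ 2 * (2 * (D : ℝ) * rs (yW (D : ℝ) α j 0 β m)) := by
            calc _ ≤ ∑ d ∈ range (D ^ 2), (2 * (D : ℝ) * rs (yW (D : ℝ) α j 0 β m)) := by
                  apply Finset.sum_le_sum
                  intro d hdm
                  obtain ⟨h1, h2⟩ := hall d (Finset.mem_range.mp hdm)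
                  exact rs_le (D : ℝ) _ _ hD1 h1 hy h2
              _ = _ := by
                  rw [Finset.sum_const, Finset.card_range, nsmul_eq_mul]
                  push_cast
                  ring
          calc (1 / (D : ℝ) ^ 2) * (et G (((j + 1 : ℕ) : ℤ) - (m : ℤ)) *
              ∑ d ∈ range (D ^ 2),
                rs (yW (D : ℝ) α (j + 1) 0 (β + (d : ℝ) / (D : ℝ) ^ (2 * j + 2)) m))
            ≤ (1 / (D : ℝ) ^ 2) * (((G : ℝ) ^ 3 * et G ((j : ℤ) - (m : ℤ))) *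
              ((D : ℝ) ^ 2 * (2 * (D : ℝ) * rs (yW (D : ℝ) α j 0 β m)))) := by
                apply mul_le_mul_of_nonneg_left _ (by positivity)
                apply mul_le_mul het1 hsum _ (by positivity)
                exact Finset.sum_nonneg (fun _ _ => rs_nonneg _)
            _ = 2 * (D : ℝ) * (G : ℝ) ^ 3 * (et G ((j : ℤ) - (m : ℤ)) * rs (yW D α j 0 β m)) := by
              field_simp
        · have hdw := hd D c0 α β j 0 m (yW D α j 0 β m) v w hD2 hc hc1 hy hv hw hcr hNv hNw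
          rcases hdw with h1 | ⟨m', h1, h2⟩
          · left
            rw [hcast, zq (D : ℝ) hD0 j m]
            exact h1
          · right
            refine ⟨m', ?_, ?_⟩
            · rw [hcast, zq (D : ℝ) hD0 m' j]
              exact h1
            · rw [hcast, zq (D : ℝ) hD0 j m]
              exact h2)
  have hTn : ∀ m, 0 ≤ T m := by
    intro m
    simp only [hT]
    apply mul_nonneg (by positivity)
    exact Finset.sum_nonneg (fun _ _ => mul_nonneg (et_pos _ hG0 _).le (rs_nonneg _))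
  have hL : ∑ d ∈ range (D ^ 2), FW G α (j + 1) 0 (β + (d : ℝ) / ((G : ℝ) ^ 4) ^ (2 * j + 2))
      = ((D ^ 2 : ℕ) : ℝ≥0∞) * ∑' m, ENNReal.ofReal (T m) := by
    unfold FW
    rw [hcast]
    rw [← Summable.tsum_finsetSum (fun _ _ => ENNReal.summable)]
    rw [← ENNReal.tsum_mul_left]
    congr 1
    funext m
    rw [← ENNReal.ofReal_sum_of_nonneg
      (fun _ _ => mul_nonneg (et_pos _ hG0 _).le (rs_nonneg _))]
    rw [show ((D ^ 2 : ℕ) : ℝ≥0∞) = ENNReal.ofReal ((D ^ 2 : ℕ) : ℝ) by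
      rw [ENNReal.ofReal_natCast]]
    rw [← ENNReal.ofReal_mul (by positivity)]
    congr 1
    simp only [hT]
    push_cast
    field_simp
  rw [hL]
  have hFW : FW G α j 0 β = ∑' m : ℕ, ENNReal.ofReal (et G ((j : ℤ) - (m : ℤ)) *
      rs (yW (D : ℝ) α j 0 β m)) := by
    unfold FW; rw [hcast]
  have hFV : FV G α j 0 β = ∑' m : ℕ, ENNReal.ofReal (et G ((m : ℤ) - (j : ℤ)) *
      rs (yV (D : ℝ) α j 0 β m)) := by
    unfold FV; rw [hcast]
  rw [hFW, hFV]
  apply mul_le_mul_right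
  rw [add_comm ((1 / 48 : ℝ≥0∞) * ∑' m : ℕ, ENNReal.ofReal (et G ((m : ℤ) - (j : ℤ)) *
      rs (yV (D : ℝ) α j 0 β m)))]
  exact key

end Pool.Agent.W477.LW
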